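import Pool.Agent.H25.Crit3

namespace Pool.Agent.Results.MP_39baa9_co.Connected

open Finset

/-- Every vertex outside `D` has a neighbour in `D`. -/
def Dominating {n : ℕ} (G : SimpleGraph (Fin n)) (D : Finset (Fin n)) : Prop :=
  ∀ v, v ∉ D → ∃ u ∈ D, G.Adj u v

/-- The domination number. -/
noncomputable def gamma {n : ℕ} (G : SimpleGraph (Fin n)) : ℕ :=
  sInf {k | ∃ D, Dominating G D ∧ D.card = k}

/-- `k`-edge-critical graphs. -/
def EdgeCritical {n : ℕ} (k : ℕ) (G : SimpleGraph (Fin n)) : Prop :=
  gamma G = k ∧ ∀ u v, u ≠ v → ¬ G.Adj u v → gamma (G ⊔ SimpleGraph.edge u v) < k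

/-- The number of vertices of degree at most `r`. -/
noncomputable def lowCount {n : ℕ} (r : ℕ) (G : SimpleGraph (Fin n)) : ℕ :=
  {v | (G.neighborSet v).ncard ≤ r}.ncard

lemma gamma_le {n : ℕ} {G : SimpleGraph (Fin n)} {D : Finset (Fin n)} (h : Dominating G D) :
    gamma G ≤ D.card := Nat.sInf_le ⟨D, h, rfl⟩

lemma gamma_spec {n : ℕ} (G : SimpleGraph (Fin n)) : ∃ D, Dominating G D ∧ D.card = gamma G :=
  Nat.sInf_mem (s := {k | ∃ D, Dominating G D ∧ D.card = k})
    ⟨_, univ, fun v hv => absurd (mem_univ v) hv, rfl⟩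

lemma pair_le {n : ℕ} {G : SimpleGraph (Fin n)} (a b : Fin n)
    (h : ∀ w, (a = w ∨ G.Adj a w) ∨ (b = w ∨ G.Adj b w)) : gamma G < 3 := by
  have : Dominating G {a, b} := by
    intro v hv
    simp only [mem_insert, mem_singleton, not_or] at hv
    rcases h v with (h | h) | (h | h)
    · exact absurd h.symm hv.1
    · exact ⟨a, by simp, h⟩
    · exact absurd h.symm hv.2
    · exact ⟨b, by simp, h⟩
  exact lt_of_le_of_lt ((gamma_le this).trans card_le_two) (by norm_num)

lemma pair_of {n : ℕ} {G : SimpleGraph (Fin n)} (z : Fin n) (h : gamma G < 3) :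
    ∃ a b, ∀ w, (a = w ∨ G.Adj a w) ∨ (b = w ∨ G.Adj b w) := by
  obtain ⟨D, hD, hc⟩ := gamma_spec G
  have : ∃ a b, D ⊆ {a, b} := by
    have : D.card = 0 ∨ D.card = 1 ∨ D.card = 2 := by omega
    rcases this with h | h | h
    · exact ⟨z, z, by rw [card_eq_zero.1 h]; exact empty_subset _⟩
    · obtain ⟨a, rfl⟩ := card_eq_one.1 h
      exact ⟨a, a, by simp⟩
    · obtain ⟨a, b, -, rfl⟩ := card_eq_two.1 h
      exact ⟨a, b, subset_rfl⟩
  obtain ⟨a, b, hab⟩ := this
  refine ⟨a, b, fun w => ?_⟩
  by_cases hw : w ∈ D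
  · have := hab hw
    simp only [mem_insert, mem_singleton] at this
    rcases this with rfl | rfl <;> simp
  · obtain ⟨u, hu, huw⟩ := hD w hw
    have := hab hu
    simp only [mem_insert, mem_singleton] at this
    rcases this with rfl | rfl <;> simp [huw]

lemma part1 (r : ℕ) (hr4 : 4 ≤ r) (he : Even r) (n : ℕ) (hn : 2 * (r + 1) ^ 2 < n)
    (G : SimpleGraph (Fin n)) (hG : G.Connected) (hc : EdgeCritical 3 G) : lowCount r G ≤ r := by
  classical
  by_contra hcon
  have h1 : r + 1 ≤ (univ.filter (fun v => (G.neighborSet v).ncard ≤ r)).card := by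
    have : lowCount r G = (univ.filter (fun v => (G.neighborSet v).ncard ≤ r)).card := by
      rw [lowCount, ← Set.ncard_coe_finset]; congr 1; ext v; simp
    omega
  obtain ⟨S, hS1, hS⟩ := exists_subset_card_eq h1
  have H2 : ∀ a b : Fin n, ∃ w, ¬ (a = w ∨ G.Adj a w) ∧ ¬ (b = w ∨ G.Adj b w) := by
    intro a b
    by_contra h
    push Not at h
    have := pair_le (G := G) a b (fun w => by have := h w; tauto)
    have := hc.1
    omega
  refine Pool.Agent.H25.Crit3.core (fun a b => a = b ∨ G.Adj a b) (fun a => Or.inl rfl)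
    (fun a b h => h.elim (fun e => Or.inl e.symm) (fun e => Or.inr e.symm)) H2 ?_ r S hS ?_ hr4 he
    ?_ (by simpa using hn)
  · intro u v huv
    simp only [not_or] at huv
    obtain ⟨a, b, hab⟩ := pair_of u (hc.2 u v huv.1 huv.2)
    simp only [SimpleGraph.sup_adj, SimpleGraph.edge_adj] at hab
    obtain ⟨w0, w1, w2⟩ := H2 a b
    have h0 := hab w0
    by_cases e1 : a = u
    · subst e1
      by_cases e2 : b = v
      · subst e2
        refine ⟨b, Or.inl (fun w hw => ?_)⟩
        have := hab w
        tauto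
      · refine ⟨b, Or.inl (fun w hw => ?_)⟩
        have := hab w
        tauto
    · by_cases e2 : a = v
      · subst e2
        refine ⟨b, Or.inr (fun w hw => ?_)⟩
        have := hab w
        tauto
      · by_cases e3 : b = u
        · subst e3
          refine ⟨a, Or.inl (fun w hw => ?_)⟩
          have := hab w
          tauto
        · by_cases e4 : b = v
          · subst e4
            refine ⟨a, Or.inr (fun w hw => ?_)⟩
            have := hab w
            tauto
          · tauto
  · intro s hs T hT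
    have h2 := (mem_filter.1 (hS1 hs)).2
    have h3 : T ⊆ insert s (G.neighborFinset s) := by
      intro w hw
      rcases hT w hw with h | h
      · simp [h]
      · simp [h]
    have h4 : (G.neighborFinset s).card = (G.neighborSet s).ncard := by
      rw [← Set.ncard_coe_finset]; simp
    have := card_le_card h3
    have := card_insert_le s (G.neighborFinset s)
    omega
  · rintro P ⟨a, ha⟩ hP b
    obtain ⟨p⟩ := hG.preconnected a b
    induction p with
    | nil => exact ha
    | cons h _ ih => exact ih (hP _ ha _ (Or.inr h))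

/-- The cocktail party graph on the first `2 * k` vertices beside a clique on the others. -/
def ex (k n : ℕ) : SimpleGraph (Fin n) where
  Adj a b := a ≠ b ∧ ((a.1 < 2 * k ∧ b.1 < 2 * k ∧ a.1 / 2 ≠ b.1 / 2) ∨
    (2 * k ≤ a.1 ∧ 2 * k ≤ b.1))
  symm := ⟨fun a b h => ⟨h.1.symm, by omega⟩⟩
  loopless := ⟨fun a h => h.1 rfl⟩

lemma ex_crit (k n : ℕ) (hk : 1 ≤ k) (hn : 2 * k < n) : EdgeCritical 3 (ex k n) := by
  let z : Fin n := ⟨2 * k, hn⟩
  let p : Fin n → Fin n := fun a =>
    if h : a.1 < 2 * k then ⟨if a.1 % 2 = 0 then a.1 + 1 else a.1 - 1, by split_ifs <;> omega⟩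
    else a
  have hp : ∀ a : Fin n, a.1 < 2 * k →
      (p a).1 < 2 * k ∧ (p a).1 / 2 = a.1 / 2 ∧ (p a).1 ≠ a.1 := by
    intro a ha
    simp only [p, dif_pos ha]
    split_ifs <;> omega
  constructor
  · apply le_antisymm
    · have : Dominating (ex k n) {⟨0, by omega⟩, ⟨1, by omega⟩, z} := by
        intro v hv
        simp only [mem_insert, mem_singleton, not_or, Fin.ext_iff, z] at hv
        by_cases h : v.1 < 2 * k
        · refine ⟨⟨0, by omega⟩, by simp, ?_⟩
          simp only [ex, ne_eq, Fin.ext_iff]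
          omega
        · refine ⟨z, by simp, ?_⟩
          simp only [ex, ne_eq, Fin.ext_iff, z]
          omega
      exact (gamma_le this).trans card_le_three
    · by_contra h
      obtain ⟨a, b, hab⟩ := pair_of z (show gamma (ex k n) < 3 by omega)
      have h1 := hab z
      have h2 := hab (p a)
      have h3 := hab (p b)
      have h4 := hab ⟨0, by omega⟩
      have h5 := hp a
      have h6 := hp b
      simp only [ex, ne_eq, Fin.ext_iff, z] at h1 h2 h3 h4
      omega
  · intro u v huv hadj
    simp only [ex, ne_eq, Fin.ext_iff] at hadj huv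
    by_cases hu : u.1 < 2 * k
    · by_cases hv : v.1 < 2 * k
      · refine pair_le u z (fun w => ?_)
        simp only [SimpleGraph.sup_adj, SimpleGraph.edge_adj, ex, ne_eq, Fin.ext_iff,
          true_and, and_true, z]
        omega
      · refine pair_le (p u) v (fun w => ?_)
        have := hp u hu
        simp only [SimpleGraph.sup_adj, SimpleGraph.edge_adj, ex, ne_eq, Fin.ext_iff,
          true_and, and_true]
        omega
    · refine pair_le (p v) u (fun w => ?_)
      have := hp v (by omega)
      simp only [SimpleGraph.sup_adj, SimpleGraph.edge_adj, ex, ne_eq, Fin.ext_iff,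
          true_and, and_true]
      omega

lemma ex_low (k n : ℕ) (hn : 2 * (k + 1) < n) : 2 * k + 2 ≤ lowCount (2 * k) (ex (k + 1) n) := by
  have hinj : ∀ s : Set (Fin n), (Fin.val '' s).ncard = s.ncard :=
    fun s => Set.ncard_image_of_injective s Fin.val_injective
  have h1 : ((range (2 * k + 2) : Finset ℕ) : Set ℕ) ⊆
      Fin.val '' {v | ((ex (k + 1) n).neighborSet v).ncard ≤ 2 * k} := by
    intro i hi
    have hi' : i < 2 * k + 2 := by simpa using hi
    refine ⟨⟨i, by omega⟩, ?_, rfl⟩
    rw [Set.mem_ofPred_eq, ← hinj]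
    have h2 : Fin.val '' (ex (k + 1) n).neighborSet ⟨i, by omega⟩ ⊆
        (((range (2 * k + 2)).erase (2 * (i / 2))).erase (2 * (i / 2) + 1) : Finset ℕ) := by
      rintro _ ⟨w, hw, rfl⟩
      simp only [SimpleGraph.mem_neighborSet, ex, ne_eq, Fin.ext_iff] at hw
      simp only [coe_erase, coe_range, Set.mem_sdiff, Set.mem_Iio, Set.mem_singleton_iff]
      omega
    refine (Set.ncard_le_ncard h2 (finite_toSet _)).trans ?_
    rw [Set.ncard_coe_finset, card_erase_of_mem (by simp; omega),
      card_erase_of_mem (by simp; omega), card_range]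
    omega
  have := Set.ncard_le_ncard h1 (Set.toFinite _)
  rwa [Set.ncard_coe_finset, card_range, hinj] at this

/-- For even `r ≥ 4`: connected 3-edge-critical graphs on more than `2 (r + 1) ^ 2` vertices have
at most `r` vertices of degree at most `r`; without connectedness there are examples with at
least `r + 2` such vertices on any number `n ≥ r + 3` of vertices. -/
theorem result (r : ℕ) (hr : 4 ≤ r) (he : Even r) :
    (∀ n, 2 * (r + 1) ^ 2 < n → ∀ G : SimpleGraph (Fin n), G.Connected → EdgeCritical 3 G →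
      lowCount r G ≤ r) ∧
    (∀ n, r + 3 ≤ n → ∃ G : SimpleGraph (Fin n), EdgeCritical 3 G ∧ r + 2 ≤ lowCount r G) := by
  refine ⟨part1 r hr he, fun n hn => ?_⟩
  obtain ⟨k, rfl⟩ := he
  rw [← two_mul] at hn ⊢
  exact ⟨ex (k + 1) n, ex_crit _ _ (by omega) (by omega), ex_low k n (by omega)⟩

end Pool.Agent.Results.MP_39baa9_co.Connected
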